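import Pool.Agent.W169.HF.DefsD
import Pool.Agent.W186.LH.Fac

/-!
# GLD-JEN: Jensen's inequality counts the zeros
-/

set_option autoImplicit false

open Complex Filter Topology Set Metric

namespace Pool.Agent.W251.HF

open Pool.Agent.W169.HF Pool.Agent.W186.LH

theorem ord_exp {F : ℂ → ℂ} (hF : Differentiable ℂ F) (hne : ∃ u, F u ≠ 0) (ℓ : ℝ) (z : ℂ) :
    analyticOrderNatAt (fun u => F u * Complex.exp (-(ℓ * u))) z = analyticOrderNatAt F z := by
  obtain ⟨h, hh, hz, he⟩ := single hF hne z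
  refine ord_of (h := fun u => h u * Complex.exp (-(ℓ * u))) (by fun_prop) (by fun_prop) ?_ ?_
  · exact mul_ne_zero hz (Complex.exp_ne_zero _)
  · intro u
    show F u * Complex.exp (-(ℓ * u)) = _
    rw [he u]; ring

theorem norm_exp_neg (ℓ : ℝ) (u : ℂ) : ‖Complex.exp (-(ℓ * u))‖ = Real.exp (-(ℓ * u.re)) := by
  rw [Complex.norm_exp]
  congr 1
  simp

/-- one disc -/
theorem disc {R δ c0 κ ℓ H v : ℝ} (hδ : 0 < δ) (hδ1 : δ ≤ 1) (hc0 : 1 ≤ c0) (hRc : R ≤ c0)
    (hH : 0 < H) {F : ℂ → ℂ} (hF : Differentiable ℂ F)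
    (hup : ∀ u : ℂ, 0 ≤ u.re → u.re ≤ 2 * c0 → |u.im| ≤ |v| + c0 →
      ‖F u‖ ≤ H * Real.exp (ℓ * u.re + κ * ℓ))
    (hlow : H * Real.exp (ℓ * c0 - κ * ℓ) ≤ ‖F (c0 + v * I)‖)
    (S : Finset ℂ) (hS : ∀ z ∈ S, δ ≤ z.re ∧ z.re ≤ R ∧ |z.im - v| ≤ δ / 2) :
    (∑ z ∈ S, analyticOrderNatAt F z : ℝ) * Real.log (c0 / (c0 - δ / 2)) ≤ 2 * κ * ℓ := by
  have hr : 0 < c0 - δ / 2 := by linarith
  have hq : 1 < c0 / (c0 - δ / 2) := by rw [one_lt_div hr]; linarith
  set c : ℂ := c0 + v * I with hc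
  have hcre : c.re = c0 := by simp [hc]
  have hcim : c.im = v := by simp [hc]
  have hFc : F c ≠ 0 := by
    intro h
    rw [h, norm_zero] at hlow
    have := mul_pos hH (Real.exp_pos (ℓ * c0 - κ * ℓ))
    linarith
  set F1 : ℂ → ℂ := fun u => F u * Complex.exp (-(ℓ * u)) with hF1
  have hF1d : Differentiable ℂ F1 := by rw [hF1]; fun_prop
  have hord : ∀ z, analyticOrderNatAt F1 z = analyticOrderNatAt F z := fun z =>
    ord_exp hF ⟨c, hFc⟩ ℓ z
  have hM : ∀ u ∈ sphere c c0, ‖F1 u‖ ≤ H * Real.exp (κ * ℓ) := by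
    intro u hu
    rw [mem_sphere, dist_eq_norm] at hu
    have h1 : |(u - c).re| ≤ c0 := by rw [← hu]; exact Complex.abs_re_le_norm _
    have h2 : |(u - c).im| ≤ c0 := by rw [← hu]; exact Complex.abs_im_le_norm _
    rw [Complex.sub_re, hcre, abs_le] at h1
    rw [Complex.sub_im, hcim] at h2
    have h3 : |u.im| ≤ |v| + c0 := by
      have := abs_add_le (u.im - v) v
      rw [sub_add_cancel] at this
      linarith
    have h4 := hup u (by linarith [h1.1]) (by linarith [h1.2]) h3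
    show ‖F u * Complex.exp (-(ℓ * u))‖ ≤ _
    rw [norm_mul, norm_exp_neg]
    calc ‖F u‖ * Real.exp (-(ℓ * u.re))
        ≤ H * Real.exp (ℓ * u.re + κ * ℓ) * Real.exp (-(ℓ * u.re)) :=
          mul_le_mul_of_nonneg_right h4 (Real.exp_pos _).le
      _ = H * Real.exp (κ * ℓ) := by
          rw [mul_assoc, ← Real.exp_add]; congr 2; ring
  have hF1c : H * Real.exp (-(κ * ℓ)) ≤ ‖F1 c‖ := by
    show _ ≤ ‖F c * Complex.exp (-(ℓ * c))‖
    rw [norm_mul, norm_exp_neg, hcre]
    calc H * Real.exp (-(κ * ℓ)) = H * Real.exp (ℓ * c0 - κ * ℓ) * Real.exp (-(ℓ * c0)) := by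
          rw [mul_assoc, ← Real.exp_add]; congr 2; ring
      _ ≤ _ := mul_le_mul_of_nonneg_right hlow (Real.exp_pos _).le
  have hF1c0 : F1 c ≠ 0 := mul_ne_zero hFc (Complex.exp_ne_zero _)
  have hball : ∀ z ∈ S, z ∈ closedBall c (c0 - δ / 2) := by
    intro z hz
    obtain ⟨h1, h2, h3⟩ := hS z hz
    rw [mem_closedBall, dist_eq_norm, Complex.norm_eq_sqrt_sq_add_sq, Complex.sub_re,
      Complex.sub_im, hcre, hcim]
    rw [Real.sqrt_le_left hr.le]
    have h4 : (z.im - v) ^ 2 ≤ (δ / 2) ^ 2 := by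
      rw [← sq_abs]
      exact pow_le_pow_left₀ (abs_nonneg _) h3 2
    have h5 : (z.re - c0) ^ 2 ≤ (c0 - δ) ^ 2 := by nlinarith
    nlinarith
  have hj := jc hF1d hr (by linarith) hM hF1c0 S hball
  have hsum : (∑ z ∈ S, analyticOrderNatAt F1 z) = ∑ z ∈ S, analyticOrderNatAt F z :=
    Finset.sum_congr rfl fun z _ => hord z
  rw [hsum] at hj
  set n := ∑ z ∈ S, analyticOrderNatAt F z with hn
  have h6 : (c0 / (c0 - δ / 2)) ^ n * (H * Real.exp (-(κ * ℓ))) ≤ H * Real.exp (κ * ℓ) :=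
    (mul_le_mul_of_nonneg_left hF1c (by positivity)).trans hj
  have h7 : (c0 / (c0 - δ / 2)) ^ n ≤ Real.exp (2 * κ * ℓ) := by
    have h8 : (c0 / (c0 - δ / 2)) ^ n * (H * Real.exp (-(κ * ℓ))) ≤
        Real.exp (2 * κ * ℓ) * (H * Real.exp (-(κ * ℓ))) := by
      refine h6.trans (le_of_eq ?_)
      rw [mul_left_comm, ← Real.exp_add]
      congr 2; ring
    exact le_of_mul_le_mul_right h8 (mul_pos hH (Real.exp_pos _))
  have h9 := Real.log_le_log (by positivity) h7
  rw [Real.log_exp, Real.log_pow] at h9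
  rw [← Nat.cast_sum]
  exact h9

theorem jen : S_JEN := by
  intro R δ ε b hR hδ hδ1 hε hb
  set c0 := max b R with hc0
  have hc1 : 1 ≤ c0 := hb.trans (le_max_left _ _)
  have hr : 0 < c0 - δ / 2 := by linarith
  have hq : 1 < c0 / (c0 - δ / 2) := by rw [one_lt_div hr]; linarith
  have hlog : 0 < Real.log (c0 / (c0 - δ / 2)) := Real.log_pos hq
  obtain ⟨K, hK⟩ := exists_nat_ge (R / δ + 1)
  have hK0 : (0 : ℝ) < 2 * K + 1 := by positivity
  refine ⟨ε * Real.log (c0 / (c0 - δ / 2)) / (2 * (2 * K + 1)), 3 * c0 + R + 2, by positivity,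
    by linarith, ?_⟩
  intro ℓ H F hℓ hH hF hup hlow S hS
  set κ := ε * Real.log (c0 / (c0 - δ / 2)) / (2 * (2 * K + 1)) with hκ
  have hmaps : ∀ z ∈ S, round (z.im / δ) ∈ Finset.Icc (-(K : ℤ)) K := by
    intro z hz
    obtain ⟨-, -, -, h3⟩ := hS z hz
    have h4 := abs_sub_round (z.im / δ)
    have h5 : |z.im / δ| ≤ R / δ := by
      rw [abs_div, abs_of_pos hδ]
      exact div_le_div_of_nonneg_right h3 hδ.le
    have h6 : |(round (z.im / δ) : ℝ)| ≤ K := by
      have := abs_sub_abs_le_abs_sub (round (z.im / δ) : ℝ) (z.im / δ)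
      rw [abs_sub_comm] at this
      linarith
    rw [Finset.mem_Icc]
    rw [abs_le] at h6
    constructor
    · exact_mod_cast h6.1
    · exact_mod_cast h6.2
  rw [← Finset.sum_fiberwise_of_maps_to hmaps]
  have hbound : ∀ k ∈ Finset.Icc (-(K : ℤ)) K,
      ∑ z ∈ S with round (z.im / δ) = k, (analyticOrderNatAt F z : ℝ) ≤ ε * ℓ / (2 * K + 1) := by
    intro k _
    rcases (S.filter fun z => round (z.im / δ) = k).eq_empty_or_nonempty with he | ⟨z0, hz0⟩
    · rw [he, Finset.sum_empty]; positivity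
    · have hclose : ∀ z : ℂ, round (z.im / δ) = k → |z.im - k * δ| ≤ δ / 2 := by
        intro z hz
        have h4 := abs_sub_round (z.im / δ)
        rw [hz] at h4
        have h5 : z.im - k * δ = (z.im / δ - k) * δ := by
          rw [sub_mul, div_mul_cancel₀ _ hδ.ne']
        rw [h5, abs_mul, abs_of_pos hδ]
        nlinarith
      rw [Finset.mem_filter] at hz0
      have hv : |(k * δ : ℝ)| ≤ R + 1 := by
        have h6 := hclose z0 hz0.2
        have h7 := (hS z0 hz0.1).2.2.2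
        have := abs_sub_abs_le_abs_sub (k * δ : ℝ) z0.im
        rw [abs_sub_comm] at this
        linarith
      have hd := disc (R := R) (κ := κ) (ℓ := ℓ) (v := k * δ) hδ hδ1 hc1 (le_max_right _ _) hH hF
        (fun u h1 h2 h3 => hup u h1 (by linarith) (by linarith))
        (by
          have h8 := hlow ((c0 : ℂ) + ((k * δ : ℝ) : ℂ) * I)
          simp only [Complex.add_re, Complex.ofReal_re, Complex.mul_re, Complex.I_re, mul_zero,
            Complex.ofReal_im, Complex.I_im, mul_one, sub_self, add_zero, Complex.add_im,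
            Complex.mul_im, zero_add] at h8
          exact h8 (le_max_left _ _) (by linarith) (by linarith))
        (S.filter fun z => round (z.im / δ) = k)
        (fun z hz => by
          rw [Finset.mem_filter] at hz
          obtain ⟨-, h1, h2, -⟩ := hS z hz.1
          exact ⟨h1, h2, hclose z hz.2⟩)
      have h10 : 2 * κ * ℓ = ε * ℓ / (2 * K + 1) * Real.log (c0 / (c0 - δ / 2)) := by
        rw [hκ]; field_simp
      rw [h10] at hd
      exact le_of_mul_le_mul_right hd hlog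
  refine (Finset.sum_le_sum hbound).trans ?_
  rw [Finset.sum_const, Int.card_Icc, nsmul_eq_mul]
  have h11 : (((K : ℤ) + 1 - -(K : ℤ)).toNat : ℝ) = 2 * K + 1 := by
    have : ((K : ℤ) + 1 - -(K : ℤ)).toNat = 2 * K + 1 := by omega
    rw [this]; push_cast; ring
  rw [h11, mul_div_cancel₀ _ hK0.ne']

end Pool.Agent.W251.HF
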